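import Mathlib.RingTheory.Jacobson.Ring
import Mathlib.GroupTheory.FiniteAbelian.Basic
import Mathlib.GroupTheory.Schreier
import Mathlib.GroupTheory.Index
import Mathlib.Algebra.CharP.Defs
import Mathlib.LinearAlgebra.Matrix.ToLin
import Mathlib.Data.Matrix.Basic
import Mathlib.RingTheory.Adjoin.FG
import Mathlib.Analysis.Real.OfDigits
import Mathlib.RingTheory.FiniteType
import Mathlib.RingTheory.Int.Basic
import Mathlib.RingTheory.PrincipalIdealDomain

/-!
# Finitely generated infinite linear groups have quotients of arbitrarily large finite order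
-/

set_option autoImplicit false

namespace Pool.Agent.X308.M

open Matrix

instance isJacobsonRing_int : IsJacobsonRing ℤ := by
  rw [isJacobsonRing_iff_prime_eq]
  intro P hP
  by_cases h0 : P = ⊥
  · subst h0
    refine le_antisymm (fun x hx => ?_) bot_le
    have h1 := Ideal.mem_jacobson_bot.1 hx x
    rw [Int.isUnit_iff] at h1
    rw [Ideal.mem_bot]
    rcases h1 with h1 | h1
    · have : x * x = 0 := by linarith
      exact mul_self_eq_zero.1 this
    · nlinarith [mul_self_nonneg x]
  · have := hP.isMaximal h0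
    exact Ideal.jacobson_eq_self_of_isMaximal

/-- A field which is finitely generated as a ring is finite. -/
theorem finite_field (K : Type*) [Field K] [Algebra.FiniteType ℤ K] : Finite K := by
  have : Module.Finite ℤ K := finite_of_finite_type_of_isJacobsonRing ℤ K
  obtain ⟨p, hp⟩ := CharP.exists K
  have hp0 : p ≠ 0 := by
    rintro rfl
    have : CharZero K := CharP.charP_to_charZero K
    have h1 : Algebra.IsIntegral ℤ K := inferInstance
    have h2 : IsField ℤ := isField_of_isIntegral_of_isField (R := ℤ) (S := K)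
      (by
        have : FaithfulSMul ℤ K := inferInstance
        exact FaithfulSMul.algebraMap_injective ℤ K) (Field.toIsField K)
    exact Int.not_isField h2
  refine Module.finite_of_fg_torsion K ?_
  intro x
  refine ⟨⟨(p : ℤ), mem_nonZeroDivisors_of_ne_zero (by exact_mod_cast hp0)⟩, ?_⟩
  change (p : ℤ) • x = 0
  rw [zsmul_eq_mul]
  simp

/-- Reduction: in a domain which is finitely generated as a ring, a nonzero element is nonzero in
some finite quotient field. -/
theorem exists_maximal {A : Type*} [CommRing A] [IsDomain A] [Algebra.FiniteType ℤ A] (δ : A)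
    (hδ : δ ≠ 0) : ∃ m : Ideal A, δ ∉ m ∧ Finite (A ⧸ m) := by
  have : IsJacobsonRing A := isJacobsonRing_of_finiteType (A := ℤ)
  have h1 : (⊥ : Ideal A).jacobson = ⊥ :=
    IsJacobsonRing.out this ((Ideal.isPrime_bot (α := A)).isRadical)
  have h2 : δ ∉ (⊥ : Ideal A).jacobson := by
    rw [h1]
    simpa using hδ
  rw [Ideal.jacobson, Ideal.mem_sInf] at h2
  push Not at h2
  obtain ⟨m, ⟨-, hm⟩, hδm⟩ := h2
  refine ⟨m, hδm, ?_⟩
  have h : Algebra.FiniteType ℤ (A ⧸ m) :=
    Algebra.FiniteType.of_surjective (Ideal.Quotient.mkₐ ℤ m) (Ideal.Quotient.mkₐ_surjective ℤ m)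
  exact @finite_field (A ⧸ m) (Ideal.Quotient.field m) h

/-- Finitely many elements with different images in a linear group are separated by a normal
subgroup of finite index which contains the kernel. -/
theorem separate {Γ : Type*} [Group Γ] [hfg : Group.FG Γ] {d : ℕ}
    (ρ : Γ →* Matrix (Fin d) (Fin d) ℝ) (F : Finset Γ) :
    ∃ S : Subgroup Γ, S.Normal ∧ S.FiniteIndex ∧ (∀ γ, ρ γ = 1 → γ ∈ S) ∧
      ∀ x ∈ F, ∀ y ∈ F, ρ x ≠ ρ y → x⁻¹ * y ∉ S := by
  classical
  obtain ⟨T, hT⟩ := hfg.1
  -- the ring of the entries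
  set U : Set ℝ := ⋃ t ∈ T, ⋃ i, ⋃ j, ({ρ t i j, ρ t⁻¹ i j} : Set ℝ) with hU
  have hUfin : U.Finite := by
    refine T.finite_toSet.biUnion fun t _ => Set.finite_iUnion fun i => Set.finite_iUnion fun j => ?_
    exact (Set.finite_singleton _).insert _
  set A : Subalgebra ℤ ℝ := Algebra.adjoin ℤ U with hA
  have hft : Algebra.FiniteType ℤ A := by
    rw [← Subalgebra.fg_iff_finiteType]
    exact ⟨hUfin.toFinset, by rw [hUfin.coe_toFinset]⟩
  have hent : ∀ γ : Γ, (∀ i j, ρ γ i j ∈ A) ∧ ∀ i j, ρ γ⁻¹ i j ∈ A := by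
    intro γ
    have hγ : γ ∈ Subgroup.closure (T : Set Γ) := by rw [hT]; trivial
    induction hγ using Subgroup.closure_induction with
    | mem t ht =>
      refine ⟨fun i j => Algebra.subset_adjoin ?_, fun i j => Algebra.subset_adjoin ?_⟩
      · exact Set.mem_biUnion ht (Set.mem_iUnion.2 ⟨i, Set.mem_iUnion.2 ⟨j, Or.inl rfl⟩⟩)
      · exact Set.mem_biUnion ht (Set.mem_iUnion.2 ⟨i, Set.mem_iUnion.2 ⟨j, Or.inr rfl⟩⟩)
    | one =>
      have h1 : ∀ i j, (1 : Matrix (Fin d) (Fin d) ℝ) i j ∈ A := by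
        intro i j
        rw [Matrix.one_apply]
        split_ifs
        · exact A.one_mem
        · exact A.zero_mem
      rw [inv_one, map_one]
      exact ⟨h1, h1⟩
    | mul x y _ _ hx hy =>
      refine ⟨fun i j => ?_, fun i j => ?_⟩
      · rw [map_mul, Matrix.mul_apply]
        exact A.sum_mem fun k _ => A.mul_mem (hx.1 i k) (hy.1 k j)
      · rw [_root_.mul_inv_rev, map_mul, Matrix.mul_apply]
        exact A.sum_mem fun k _ => A.mul_mem (hy.2 i k) (hx.2 k j)
    | inv x _ hx => exact ⟨hx.2, by rw [inv_inv]; exact hx.1⟩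
  -- the group over `A`
  let ρA : Γ →* Matrix (Fin d) (Fin d) A :=
    { toFun := fun γ i j => ⟨ρ γ i j, (hent γ).1 i j⟩
      map_one' := by
        ext i j
        simp [Matrix.one_apply]
        split_ifs <;> rfl
      map_mul' := by
        intro x y
        ext i j
        simp [Matrix.mul_apply] }
  have hρA : ∀ γ i j, ((ρA γ i j : A) : ℝ) = ρ γ i j := fun γ i j => rfl
  -- the nonzero element
  have hpair : ∀ p : Γ × Γ, ∃ a : A, a ≠ 0 ∧
      (ρ p.1 ≠ ρ p.2 → ∃ i j, a = ρA p.1 i j - ρA p.2 i j) := by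
    intro p
    by_cases hp : ρ p.1 = ρ p.2
    · exact ⟨1, one_ne_zero, fun h => absurd hp h⟩
    · have : ∃ i j, ρ p.1 i j ≠ ρ p.2 i j := by
        by_contra hc
        push Not at hc
        exact hp (by ext i j; exact hc i j)
      obtain ⟨i, j, hij⟩ := this
      refine ⟨ρA p.1 i j - ρA p.2 i j, ?_, fun _ => ⟨i, j, rfl⟩⟩
      intro h0
      apply hij
      have h1 := congrArg (fun a : A => (a : ℝ)) h0
      simp only [AddSubgroupClass.coe_sub, ZeroMemClass.coe_zero, hρA] at h1
      exact sub_eq_zero.1 h1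
  choose a ha ha' using hpair
  have hδ : (∏ p ∈ F ×ˢ F, a p) ≠ 0 := Finset.prod_ne_zero_iff.2 fun p _ => ha p
  obtain ⟨m, hm, hfin⟩ := exists_maximal _ hδ
  let q : Matrix (Fin d) (Fin d) A →* Matrix (Fin d) (Fin d) (A ⧸ m) :=
    ((Ideal.Quotient.mk m).mapMatrix : Matrix (Fin d) (Fin d) A →+* _).toMonoidHom
  let σ : Γ →* (Matrix (Fin d) (Fin d) (A ⧸ m))ˣ := (q.comp ρA).toHomUnits
  have hσ : ∀ γ i j, (σ γ : Matrix (Fin d) (Fin d) (A ⧸ m)) i j = Ideal.Quotient.mk m (ρA γ i j) :=
    fun γ i j => rfl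
  have hfinU : Finite (Matrix (Fin d) (Fin d) (A ⧸ m))ˣ := inferInstance
  refine ⟨σ.ker, inferInstance, Subgroup.finiteIndex_ker σ, ?_, ?_⟩
  · intro γ hγ
    rw [MonoidHom.mem_ker]
    ext i j
    rw [hσ]
    have h1 : ρA γ = 1 := by
      ext i j
      rw [hρA, hγ, Matrix.one_apply, Matrix.one_apply]
      split_ifs <;> rfl
    rw [h1, Units.val_one, Matrix.one_apply, Matrix.one_apply]
    split_ifs
    · exact map_one _
    · exact map_zero _
  · intro x hx y hy hxy hS
    rw [MonoidHom.mem_ker, map_mul, map_inv, inv_mul_eq_one] at hS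
    obtain ⟨i, j, hij⟩ := ha' (x, y) hxy
    apply hm
    have h2 : a (x, y) ∈ m := by
      rw [← Ideal.Quotient.eq_zero_iff_mem, hij, map_sub, ← hσ, ← hσ, hS, sub_self]
    exact Ideal.mem_of_dvd m (Finset.dvd_prod_of_mem a (Finset.mk_mem_product hx hy)) h2

/-- A finitely generated group with an infinite linear image has normal subgroups of arbitrarily
large finite index, containing the kernel and avoiding a finite set outside the kernel. -/
theorem large_index {Γ : Type*} [Group Γ] [hfg : Group.FG Γ] {d : ℕ}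
    (ρ : Γ →* Matrix (Fin d) (Fin d) ℝ) (hρ : (Set.range ρ).Infinite) (F : Finset Γ) (N : ℕ) :
    ∃ S : Subgroup Γ, S.Normal ∧ S.FiniteIndex ∧ N ≤ S.index ∧ (∀ γ, ρ γ = 1 → γ ∈ S) ∧
      ∀ γ ∈ F, γ ∈ S → ρ γ = 1 := by
  classical
  obtain ⟨G, hGsub, hGcard⟩ := hρ.exists_subset_card_eq N
  have hsel : ∀ M ∈ G, ∃ γ, ρ γ = M := fun M hM => hGsub hM
  choose! g hg using hsel
  obtain ⟨S, h1, h2, h3, h4⟩ := separate ρ (insert 1 (F ∪ G.image g))
  refine ⟨S, h1, h2, ?_, h3, ?_⟩
  · have hinj : Function.Injective (fun M : G => ((g M : Γ) : Γ ⧸ S)) := by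
      intro M M' hMM
      by_contra hne
      refine h4 (g M) ?_ (g M') ?_ ?_ (QuotientGroup.eq.1 hMM)
      · exact Finset.mem_insert_of_mem (Finset.mem_union_right _ (Finset.mem_image_of_mem g M.2))
      · exact Finset.mem_insert_of_mem (Finset.mem_union_right _ (Finset.mem_image_of_mem g M'.2))
      · rw [hg _ M.2, hg _ M'.2]
        exact fun h => hne (Subtype.ext h)
    have : Finite (Γ ⧸ S) := Subgroup.finite_quotient_of_finiteIndex
    have hc := Nat.card_le_card_of_injective _ hinj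
    rwa [Nat.card_eq_fintype_card, Fintype.card_coe, hGcard] at hc
  · intro γ hγ hS
    by_contra hne
    refine h4 1 (Finset.mem_insert_self _ _) γ
      (Finset.mem_insert_of_mem (Finset.mem_union_left _ hγ)) ?_ ?_
    · rw [map_one]
      exact fun h => hne h.symm
    · rwa [inv_one, one_mul]

end Pool.Agent.X308.M
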