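import Pool.Agent.X308.M.Alg
import Mathlib.AlgebraicTopology.FundamentalGroupoid.SimplyConnected
import Mathlib.Analysis.Normed.Module.FiniteDimension
import Mathlib.LinearAlgebra.AffineSpace.AffineEquiv
import Mathlib.Topology.IsLocalHomeomorph
import Mathlib.LinearAlgebra.Matrix.ToLin
import Mathlib.GroupTheory.Rank

/-!
# Closed affine manifolds and their finite coverings
-/

set_option autoImplicit false

namespace Pool.Agent.X308.M

open Set

/-- The group of affine automorphisms of a real vector space. -/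
def Aff (E : Type) [NormedAddCommGroup E] [NormedSpace ℝ E] : Type := E ≃ᵃ[ℝ] E

instance Aff.group (E : Type) [NormedAddCommGroup E] [NormedSpace ℝ E] : Group (Aff E) :=
  @AffineEquiv.group ℝ E E _ _ _ _

/-- The identification of `Aff E` with the group of affine automorphisms. -/
def Aff.toEquiv {E : Type} [NormedAddCommGroup E] [NormedSpace ℝ E] (f : Aff E) :
    E ≃ᵃ[ℝ] E := f

/-- A closed affine manifold, given by its universal covering `X`, its fundamental group `Γ` acting
on it, a developing map and the holonomy. -/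
structure AffineManifold where
  /-- the model vector space; its dimension is the dimension of the manifold -/
  E : Type
  [e1 : NormedAddCommGroup E]
  [e2 : NormedSpace ℝ E]
  [e3 : FiniteDimensional ℝ E]
  /-- the universal covering -/
  X : Type
  [x1 : TopologicalSpace X]
  [x2 : T2Space X]
  [x3 : SimplyConnectedSpace X]
  /-- the fundamental group -/
  Γ : Type
  [g1 : Group Γ]
  [g2 : MulAction Γ X]
  /-- the developing map -/
  dev : X → E
  /-- the holonomy -/
  hol : Γ →* Aff E
  /-- the developing map is a local homeomorphism -/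
  loc : IsLocalHomeomorph dev
  /-- the group acts by homeomorphisms -/
  cont : ∀ γ : Γ, Continuous fun x : X => γ • x
  /-- the action is free -/
  free : ∀ (γ : Γ) (x : X), γ • x = x → γ = 1
  /-- the developing map is equivariant -/
  equi : ∀ (γ : Γ) (x : X), dev (γ • x) = (hol γ).toEquiv (dev x)
  /-- the action is properly discontinuous -/
  pd : ∀ K : Set X, IsCompact K → {γ : Γ | ∃ x ∈ K, γ • x ∈ K}.Finite
  /-- the quotient is compact -/
  cc : ∃ K : Set X, IsCompact K ∧ ∀ x : X, ∃ γ : Γ, ∃ k ∈ K, γ • k = x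

namespace AffineManifold

attribute [instance] e1 e2 e3 x1 x2 x3 g1 g2

/-- The dimension. -/
noncomputable def dim (M : AffineManifold) : ℕ := Module.finrank ℝ M.E

lemma cover_pd (M : AffineManifold) (S : Subgroup M.Γ) (K : Set M.X) (hK : IsCompact K) :
    {γ : S | ∃ x ∈ K, γ • x ∈ K}.Finite := by
  refine Finite.of_finite_image (f := fun γ : S => (γ : M.Γ)) ((M.pd K hK).subset ?_)
    (Subtype.val_injective.injOn)
  rintro _ ⟨γ, hγ, rfl⟩
  exact hγ

lemma cover_cc (M : AffineManifold) (S : Subgroup M.Γ) [hS : S.FiniteIndex] :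
    ∃ K : Set M.X, IsCompact K ∧ ∀ x : M.X, ∃ γ : S, ∃ k ∈ K, γ • k = x := by
  obtain ⟨K, hK, hcov⟩ := M.cc
  have hfin : Finite (M.Γ ⧸ S) := Subgroup.finite_quotient_of_finiteIndex
  refine ⟨⋃ q : M.Γ ⧸ S, (fun x : M.X => (Quotient.out q)⁻¹ • x) '' K,
    isCompact_iUnion fun q => hK.image (M.cont _), ?_⟩
  intro x
  obtain ⟨γ, k, hk, rfl⟩ := hcov x
  have h1 : (Quotient.out ((γ⁻¹ : M.Γ) : M.Γ ⧸ S))⁻¹ * γ⁻¹ ∈ S := by
    rw [← QuotientGroup.eq]
    exact QuotientGroup.out_eq' _
  refine ⟨⟨γ * Quotient.out ((γ⁻¹ : M.Γ) : M.Γ ⧸ S), ?_⟩,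
    (Quotient.out ((γ⁻¹ : M.Γ) : M.Γ ⧸ S))⁻¹ • k, ?_, ?_⟩
  · have := S.inv_mem h1
    rwa [mul_inv_rev, inv_inv, inv_inv] at this
  · exact mem_iUnion.2 ⟨_, mem_image_of_mem _ hk⟩
  · rw [Subgroup.mk_smul, mul_smul, smul_inv_smul]

lemma cover_free (M : AffineManifold) (S : Subgroup M.Γ) (γ : S) (x : M.X) (h : γ • x = x) :
    γ = 1 := Subtype.ext (M.free γ x h)

/-- The covering of a closed affine manifold which belongs to a subgroup of finite index of the
fundamental group. -/
def cover (M : AffineManifold) (S : Subgroup M.Γ) [hS : S.FiniteIndex] : AffineManifold where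
  E := M.E
  X := M.X
  Γ := S
  dev := M.dev
  hol := M.hol.comp S.subtype
  loc := M.loc
  cont := fun γ => M.cont γ
  free := M.cover_free S
  equi := fun γ x => M.equi γ x
  pd := M.cover_pd S
  cc := M.cover_cc S

@[simp] lemma dim_cover (M : AffineManifold) (S : Subgroup M.Γ) [S.FiniteIndex] :
    (M.cover S).dim = M.dim := rfl

lemma weaklyLocallyCompact (M : AffineManifold) : WeaklyLocallyCompactSpace M.X := by
  refine ⟨fun x => ?_⟩
  obtain ⟨e, hx, he⟩ := M.loc x
  have : ProperSpace M.E := FiniteDimensional.proper_real M.E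
  have h1 : e.target ∈ nhds (e x) := e.open_target.mem_nhds (e.map_source hx)
  obtain ⟨N, hN, hNt, hNc⟩ := local_compact_nhds h1
  refine ⟨e.symm '' N, hNc.image_of_continuousOn (e.continuousOn_symm.mono hNt), ?_⟩
  have h2 : e.source ∩ e ⁻¹' N ∈ nhds x :=
    Filter.inter_mem (e.open_source.mem_nhds hx) (e.continuousAt hx hN)
  refine Filter.mem_of_superset h2 ?_
  rintro y ⟨hy, hyN⟩
  exact ⟨e y, hyN, e.left_inv hy⟩

/-- The holonomy group of a closed affine manifold of positive dimension is infinite. -/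
theorem hol_infinite (M : AffineManifold) (hn : 0 < M.dim) : (range M.hol).Infinite := by
  intro hfin
  have : Nontrivial M.E := Module.finrank_pos_iff.1 hn
  obtain ⟨K, hK, hcov⟩ := M.cc
  have hcd : Continuous M.dev := M.loc.continuous
  have h1 : range M.dev = ⋃ h ∈ range M.hol, (fun x : M.E => h.toEquiv x) '' (M.dev '' K) := by
    ext y
    constructor
    · rintro ⟨x, rfl⟩
      obtain ⟨γ, k, hk, rfl⟩ := hcov x
      refine mem_biUnion (mem_range_self γ) ⟨M.dev k, mem_image_of_mem _ hk, ?_⟩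
      exact (M.equi γ k).symm
    · intro hy
      obtain ⟨h, ⟨γ, rfl⟩, hy⟩ := mem_iUnion₂.1 hy
      obtain ⟨_, ⟨k, hk, rfl⟩, rfl⟩ := hy
      exact ⟨γ • k, M.equi γ k⟩
  have h2 : IsCompact (range M.dev) := by
    rw [h1]
    refine hfin.isCompact_biUnion fun h _ => (hK.image hcd).image ?_
    exact AffineMap.continuous_of_finiteDimensional (h.toEquiv : M.E →ᵃ[ℝ] M.E)
  have h3 : range M.dev = univ :=
    IsClopen.eq_univ ⟨h2.isClosed, M.loc.isOpenMap.isOpen_range⟩ (range_nonempty _)
  rw [h3] at h2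
  exact noncompact_univ M.E h2

/-- The fundamental group of a closed affine manifold is finitely generated. -/
instance fg (M : AffineManifold) : Group.FG M.Γ := by
  obtain ⟨K, hK, hcov⟩ := M.cc
  have := M.weaklyLocallyCompact
  obtain ⟨K', hK', hKK'⟩ := exists_compact_superset hK
  set T : Set M.Γ := {γ : M.Γ | ∃ x ∈ K', γ • x ∈ K'} with hT
  have hTfin : T.Finite := M.pd K' hK'
  set H := Subgroup.closure T with hH
  have key : ∀ γ γ' : M.Γ, ∀ k ∈ interior K', ∀ k' ∈ interior K', γ • k = γ' • k' →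
      γ ∈ H → γ' ∈ H := by
    intro γ γ' k hk k' hk' he hγ
    have h1 : γ'⁻¹ * γ ∈ T := by
      refine ⟨k, interior_subset hk, ?_⟩
      rw [mul_smul, he, inv_smul_smul]
      exact interior_subset hk'
    have h2 : γ'⁻¹ * γ ∈ H := Subgroup.subset_closure h1
    have h3 := H.mul_mem hγ (H.inv_mem h2)
    rwa [mul_inv_rev, inv_inv, mul_inv_cancel_left] at h3
  set U : Set M.X := ⋃ γ ∈ H, (fun x : M.X => γ • x) '' interior K' with hU
  set V : Set M.X := ⋃ γ ∈ (H : Set M.Γ)ᶜ, (fun x : M.X => γ • x) '' interior K' with hV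
  have hopen : ∀ γ : M.Γ, IsOpen ((fun x : M.X => γ • x) '' interior K') := by
    intro γ
    have : (fun x : M.X => γ • x) '' interior K' = (fun x : M.X => γ⁻¹ • x) ⁻¹' interior K' := by
      ext y
      constructor
      · rintro ⟨x, hx, rfl⟩
        change γ⁻¹ • γ • x ∈ interior K'
        rwa [inv_smul_smul]
      · intro hy
        exact ⟨γ⁻¹ • y, hy, smul_inv_smul γ y⟩
    rw [this]
    exact isOpen_interior.preimage (M.cont _)
  have hUo : IsOpen U := isOpen_biUnion fun γ _ => hopen γ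
  have hVo : IsOpen V := isOpen_biUnion fun γ _ => hopen γ
  have hUV : Uᶜ = V := by
    ext x
    constructor
    · intro hx
      obtain ⟨γ, k, hk, rfl⟩ := hcov x
      refine mem_biUnion (x := γ) ?_ (mem_image_of_mem _ (hKK' hk))
      intro hγ
      exact hx (mem_biUnion (x := γ) hγ (mem_image_of_mem _ (hKK' hk)))
    · intro hx hxU
      obtain ⟨γ', hγ', k', hk', h'⟩ := mem_iUnion₂.1 hx
      obtain ⟨γ, hγ, k, hk, h⟩ := mem_iUnion₂.1 hxU
      exact hγ' (key γ γ' k hk k' hk' (h.trans h'.symm) hγ)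
  have hclosed : IsClosed U := by
    rw [← isOpen_compl_iff, hUV]
    exact hVo
  have hne : U.Nonempty := by
    obtain ⟨x⟩ : Nonempty M.X := inferInstance
    obtain ⟨γ, k, hk, rfl⟩ := hcov x
    exact ⟨k, mem_biUnion (x := (1 : M.Γ)) H.one_mem ⟨k, hKK' hk, one_smul _ _⟩⟩
  have huniv : U = univ := IsClopen.eq_univ ⟨hclosed, hUo⟩ hne
  refine ⟨⟨hTfin.toFinset, ?_⟩⟩
  rw [hTfin.coe_toFinset, Subgroup.eq_top_iff']
  intro γ
  obtain ⟨x⟩ : Nonempty M.X := inferInstance
  obtain ⟨γ₀, k, hk, -⟩ := hcov x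
  have h1 : γ • k ∈ U := by rw [huniv]; trivial
  obtain ⟨γ', hγ', k', hk', h'⟩ := mem_iUnion₂.1 h1
  exact key γ' γ k' hk' k (hKK' hk) h' hγ'

end AffineManifold

end Pool.Agent.X308.M
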