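import Pool.Agent.X308.M.Geo
import Mathlib.Topology.Algebra.Order.LiminfLimsup

/-!
# Sublinear bounds for multiplicative invariants of closed affine manifolds
-/

set_option autoImplicit false

namespace Pool.Agent.X308.M

open Set Filter Topology

section Linear

variable (E : Type) [NormedAddCommGroup E] [NormedSpace ℝ E]

/-- The linear action of the affine group of `E` on `E × ℝ`. -/
def affEnd' : (E ≃ᵃ[ℝ] E) →* Module.End ℝ (E × ℝ) where
  toFun f := LinearMap.prod
    ((f.linear : E →ₗ[ℝ] E).comp (LinearMap.fst ℝ E ℝ) +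
      (LinearMap.toSpanSingleton ℝ E (f 0)).comp (LinearMap.snd ℝ E ℝ)) (LinearMap.snd ℝ E ℝ)
  map_one' := by
    refine LinearMap.ext fun x => ?_
    refine Prod.ext ?_ rfl
    change x.1 + x.2 • (0 : E) = x.1
    simp
  map_mul' := by
    intro f g
    refine LinearMap.ext fun x => ?_
    refine Prod.ext ?_ rfl
    change f.linear (g.linear x.1) + x.2 • f (g 0) = f.linear (g.linear x.1 + x.2 • g 0) + x.2 • f 0
    have h : f (g 0) = f.linear (g 0) + f 0 := by
      have := f.map_vadd 0 (g 0)
      simpa using this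
    rw [h, map_add, map_smul, smul_add, add_assoc]

/-- The linear action of the affine group of `E` on `E × ℝ`. -/
def affEnd : Aff E →* Module.End ℝ (E × ℝ) where
  toFun f := affEnd' E f.toEquiv
  map_one' := (affEnd' E).map_one
  map_mul' f g := (affEnd' E).map_mul f.toEquiv g.toEquiv

lemma affEnd_injective : Function.Injective (affEnd E) := by
  intro (f : E ≃ᵃ[ℝ] E) (g : E ≃ᵃ[ℝ] E) h
  change affEnd' E f = affEnd' E g at h
  have h0 : f 0 = g 0 := by
    have := congrArg (fun u : Module.End ℝ (E × ℝ) => (u (0, 1)).1) h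
    change f.linear 0 + (1 : ℝ) • f 0 = g.linear 0 + (1 : ℝ) • g 0 at this
    simpa using this
  have h1 : ∀ x : E, f.linear x = g.linear x := by
    intro x
    have := congrArg (fun u : Module.End ℝ (E × ℝ) => (u (x, 0)).1) h
    change f.linear x + (0 : ℝ) • f 0 = g.linear x + (0 : ℝ) • g 0 at this
    simpa using this
  refine AffineEquiv.ext fun x => ?_
  have hf := f.map_vadd 0 x
  have hg := g.map_vadd 0 x
  simp only [vadd_eq_add, add_zero] at hf hg
  rw [hf, hg, h0, h1]

end Linear

namespace AffineManifold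

/-- The finite coverings of a closed affine manifold of positive dimension. -/
theorem exists_cover (M : AffineManifold) (hn : 0 < M.dim) (F : Finset M.Γ) (N : ℕ) :
    ∃ S : Subgroup M.Γ, S.Normal ∧ S.FiniteIndex ∧ N ≤ S.index ∧ M.hol.ker ≤ S ∧
      ∀ γ ∈ F, γ ∈ S → M.hol γ = 1 := by
  let b := Module.finBasis ℝ (M.E × ℝ)
  let ρ : M.Γ →* Matrix (Fin (Module.finrank ℝ (M.E × ℝ))) (Fin (Module.finrank ℝ (M.E × ℝ))) ℝ :=
    ((LinearMap.toMatrixAlgEquiv b : Module.End ℝ (M.E × ℝ) ≃ₐ[ℝ] _) :
      Module.End ℝ (M.E × ℝ) →* _).comp ((affEnd M.E).comp M.hol)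
  have hρ : ∀ γ, ρ γ = LinearMap.toMatrixAlgEquiv b (affEnd M.E (M.hol γ)) := fun γ => rfl
  have hinj : Function.Injective fun f : Aff M.E =>
      LinearMap.toMatrixAlgEquiv b (affEnd M.E f) :=
    (LinearMap.toMatrixAlgEquiv b).injective.comp (affEnd_injective M.E)
  have hinf : (range ρ).Infinite := by
    have : range ρ = (fun f : Aff M.E =>
        LinearMap.toMatrixAlgEquiv b (affEnd M.E f)) '' range M.hol := by
      rw [← range_comp]
      rfl
    rw [this]
    exact (M.hol_infinite hn).image hinj.injOn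
  have hone : ∀ γ, ρ γ = 1 ↔ M.hol γ = 1 := by
    intro γ
    rw [hρ]
    constructor
    · intro h
      apply hinj
      change _ = LinearMap.toMatrixAlgEquiv b (affEnd M.E 1)
      rw [map_one, map_one]
      exact h
    · intro h
      rw [h, map_one, map_one]
  obtain ⟨S, h1, h2, h3, h4, h5⟩ := large_index ρ hinf F N
  exact ⟨S, h1, h2, h3, fun γ hγ => h4 γ ((hone γ).2 hγ), fun γ hγ hS => (hone γ).1 (h5 γ hγ hS)⟩

instance fg_range (M : AffineManifold) : Group.FG M.hol.range := Group.fg_range M.hol

/-- The smallest number of generators of the holonomy group. -/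
noncomputable def holRank (M : AffineManifold) : ℕ := Group.rank M.hol.range

theorem holRank_cover (M : AffineManifold) (S : Subgroup M.Γ) [S.FiniteIndex] :
    (M.cover S).holRank ≤ S.index * M.holRank := by
  set f := M.hol.rangeRestrict with hf
  set H : Subgroup M.hol.range := S.map f with hH
  have hidx : H.index = (S ⊔ f.ker).index := by
    rw [hH, Subgroup.index_map, MonoidHom.range_eq_top.2 M.hol.rangeRestrict_surjective,
      Subgroup.index_top, mul_one]
  have hdvd : H.index ∣ S.index := by
    rw [hidx]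
    exact Subgroup.index_dvd_of_le le_sup_left
  have hS0 : S.index ≠ 0 := Subgroup.FiniteIndex.index_ne_zero
  have hle : H.index ≤ S.index := Nat.le_of_dvd (Nat.pos_of_ne_zero hS0) hdvd
  have hH0 : H.FiniteIndex := ⟨fun h => hS0 (Nat.eq_zero_of_zero_dvd (h ▸ hdvd))⟩
  have hr : (M.cover S).hol.range = H.map M.hol.range.subtype := by
    rw [hH, Subgroup.map_map]
    change (M.hol.comp S.subtype).range = _
    rw [MonoidHom.range_comp, Subgroup.range_subtype]
    rfl
  have i1 : Group.FG H := Subgroup.fg_of_index_ne_zero H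
  have e1 : H ≃* (M.cover S).hol.range :=
    (H.equivMapOfInjective _ (Subtype.val_injective)).trans (MulEquiv.subgroupCongr hr.symm)
  have h1 : (M.cover S).holRank = Group.rank H := (Group.rank_congr e1).symm
  rw [h1]
  exact (Subgroup.rank_le_index_mul_rank H).trans (Nat.mul_le_mul_right _ hle)

end AffineManifold

/-- A monotone function `f` with `f x / x → 0` for `x → ∞`. -/
def Sublinear (f : ℝ → ℝ) : Prop := Monotone f ∧ Tendsto (fun x => f x / x) atTop (𝓝 0)

/-- A normal subgroup of finite index of the fundamental group, which contains the kernel of the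
holonomy and does not contain an element of `F` with nontrivial holonomy. -/
def AffineManifold.Admissible (M : AffineManifold) (F : Finset M.Γ) (S : Subgroup M.Γ) : Prop :=
  S.Normal ∧ M.hol.ker ≤ S ∧ ∀ γ ∈ F, γ ∈ S → M.hol γ = 1

/-- An invariant whose absolute value is multiplicative under finite coverings. -/
def CoveringMultiplicative (v : AffineManifold → ℝ) : Prop :=
  ∀ (M : AffineManifold) (S : Subgroup M.Γ) [S.FiniteIndex], |v (M.cover S)| = S.index * |v M|

/-- An invariant which is submultiplicative under finite coverings. -/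
def CoveringSubmultiplicative (c : AffineManifold → ℝ) : Prop :=
  ∀ (M : AffineManifold) (S : Subgroup M.Γ) [S.FiniteIndex], c (M.cover S) ≤ S.index * c M

/-- The final computation: a sublinear bound along coverings of large index gives zero. -/
theorem eq_zero_of_sublinear {f : ℝ → ℝ} (hf : Monotone f)
    (hlim : Tendsto (fun x => f x / x) atTop (𝓝 0)) {v C : ℝ}
    (h : ∀ N : ℕ, ∃ k : ℕ, N ≤ k ∧ k * |v| ≤ f (k * C)) : v = 0 := by
  by_contra hv
  have hv0 : 0 < |v| := abs_pos.2 hv
  set D := max C 1 with hD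
  have hD0 : 0 < D := lt_of_lt_of_le one_pos (le_max_right _ _)
  have h1 : ∀ᶠ x : ℝ in atTop, f x / x < |v| / D := by
    have := (tendsto_order.1 hlim).2 (|v| / D) (div_pos hv0 hD0)
    exact this
  obtain ⟨x₀, hx₀⟩ := eventually_atTop.1 h1
  obtain ⟨N, hN⟩ := exists_nat_ge (max (x₀ / D) 1)
  obtain ⟨k, hk, hkv⟩ := h N
  have hkN : (N : ℝ) ≤ k := by exact_mod_cast hk
  have hk1 : (1 : ℝ) ≤ k := (le_max_right _ _).trans (hN.trans hkN)
  have hk0 : (0 : ℝ) < k := lt_of_lt_of_le one_pos hk1
  have h2 : x₀ ≤ k * D := by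
    have := (le_max_left (x₀ / D) 1).trans (hN.trans hkN)
    rwa [div_le_iff₀ hD0] at this
  have h3 := hx₀ _ h2
  have h4 : f (k * C) ≤ f (k * D) := hf (mul_le_mul_of_nonneg_left (le_max_left _ _) hk0.le)
  have h5 : f (k * D) < |v| / D * (k * D) := by
    rwa [div_lt_iff₀ (mul_pos hk0 hD0)] at h3
  have h6 : |v| / D * (k * D) = k * |v| := by
    field_simp
  linarith

/-- **Theorem.** -/
theorem main (v : AffineManifold → ℝ) (hv : CoveringMultiplicative v)
    (c : AffineManifold → ℝ) (hc : CoveringSubmultiplicative c)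
    (f : ℝ → ℝ) (hf : Sublinear f)
    (M : AffineManifold) (hn : 0 < M.dim) (F : Finset M.Γ)
    (h : ∀ (S : Subgroup M.Γ) [S.FiniteIndex], M.Admissible F S →
      |v (M.cover S)| ≤ f (c (M.cover S))) : v M = 0 := by
  refine eq_zero_of_sublinear hf.1 hf.2 (C := c M) fun N => ?_
  obtain ⟨S, h1, h2, h3, h4, h5⟩ := M.exists_cover hn F N
  refine ⟨S.index, h3, ?_⟩
  rw [← hv M S]
  exact (h S ⟨h1, h4, h5⟩).trans (hf.1 (hc M S))

end Pool.Agent.X308.M
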