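import Pool.Agent.X308.M.Geo
import Mathlib.Topology.Homotopy.Product
import Mathlib.Topology.OpenPartialHomeomorph.Constructions

/-!
# Products of closed affine manifolds
-/

set_option autoImplicit false

namespace Pool.Agent.X308.M

open Set

lemma simplyConnected_prod (X Y : Type) [TopologicalSpace X] [TopologicalSpace Y]
    [SimplyConnectedSpace X] [SimplyConnectedSpace Y] : SimplyConnectedSpace (X × Y) := by
  rw [simply_connected_iff_paths_homotopic]
  refine ⟨inferInstance, ?_⟩
  rintro ⟨x, y⟩ ⟨x', y'⟩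
  refine ⟨fun p q => ?_⟩
  rw [← Path.Homotopic.prod_projLeft_projRight p, ← Path.Homotopic.prod_projLeft_projRight q]
  congr 1
  · exact Subsingleton.elim _ _
  · exact Subsingleton.elim _ _

lemma rank_prod_le (G H : Type*) [Group G] [Group H] [Group.FG G] [Group.FG H]
    [Group.FG (G × H)] : Group.rank (G × H) ≤ Group.rank G + Group.rank H := by
  classical
  obtain ⟨S, hS, hS'⟩ := Group.rank_spec G
  obtain ⟨T, hT, hT'⟩ := Group.rank_spec H
  have h : Subgroup.closure ((S.image (MonoidHom.inl G H) ∪ T.image (MonoidHom.inr G H) :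
      Finset (G × H)) : Set (G × H)) = ⊤ := by
    rw [Subgroup.eq_top_iff']
    rintro ⟨g, h⟩
    rw [Finset.coe_union, Subgroup.closure_union, Finset.coe_image, Finset.coe_image,
      ← MonoidHom.map_closure, ← MonoidHom.map_closure, hS', hT']
    have : ((g, h) : G × H) = MonoidHom.inl G H g * MonoidHom.inr G H h := by
      simp
    rw [this]
    exact Subgroup.mul_mem_sup (Subgroup.mem_map_of_mem _ (Subgroup.mem_top _))
      (Subgroup.mem_map_of_mem _ (Subgroup.mem_top _))
  refine (Group.rank_le h).trans ((Finset.card_union_le _ _).trans ?_)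
  rw [← hS, ← hT]
  exact add_le_add Finset.card_image_le Finset.card_image_le

section Aff

variable (E E' : Type) [NormedAddCommGroup E] [NormedSpace ℝ E] [NormedAddCommGroup E']
  [NormedSpace ℝ E']

/-- The product of two affine automorphisms. -/
def prodFun (f : Aff E) (g : Aff E') : Aff (E × E') := f.toEquiv.prodCongr g.toEquiv

lemma prodFun_one : prodFun E E' 1 1 = 1 :=
  AffineEquiv.ext fun _ => rfl

lemma prodFun_mul (f g : Aff E) (f' g' : Aff E') :
    prodFun E E' (f * g) (f' * g') = prodFun E E' f f' * prodFun E E' g g' :=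
  AffineEquiv.ext fun _ => rfl

/-- The product of affine automorphisms as a homomorphism. -/
def prodAff : Aff E × Aff E' →* Aff (E × E') where
  toFun f := prodFun E E' f.1 f.2
  map_one' := prodFun_one E E'
  map_mul' x y := prodFun_mul E E' x.1 y.1 x.2 y.2

end Aff

namespace AffineManifold

/-- The action of a product of groups on a product of spaces. -/
def prodAction (M N : AffineManifold) : MulAction (M.Γ × N.Γ) (M.X × N.X) where
  smul γ x := (γ.1 • x.1, γ.2 • x.2)
  one_smul x := Prod.ext (one_smul M.Γ x.1) (one_smul N.Γ x.2)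
  mul_smul γ γ' x := Prod.ext (mul_smul γ.1 γ'.1 x.1) (mul_smul γ.2 γ'.2 x.2)

section

variable (M N : AffineManifold)

attribute [local instance] prodAction

lemma prod_loc : IsLocalHomeomorph (Prod.map M.dev N.dev) := by
  rintro ⟨x, y⟩
  obtain ⟨e, hx, he⟩ := M.loc x
  obtain ⟨e', hy, he'⟩ := N.loc y
  refine ⟨e.prod e', ⟨hx, hy⟩, ?_⟩
  rw [he, he']
  rfl

lemma prod_cont (γ : M.Γ × N.Γ) : Continuous fun x : M.X × N.X => (prodAction M N).smul γ x :=
  ((M.cont γ.1).comp continuous_fst).prodMk ((N.cont γ.2).comp continuous_snd)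

lemma prod_free (γ : M.Γ × N.Γ) (x : M.X × N.X) (h : (prodAction M N).smul γ x = x) : γ = 1 :=
  Prod.ext (M.free γ.1 x.1 (congrArg Prod.fst h)) (N.free γ.2 x.2 (congrArg Prod.snd h))

lemma prod_equi (γ : M.Γ × N.Γ) (x : M.X × N.X) :
    Prod.map M.dev N.dev ((prodAction M N).smul γ x) =
      ((prodAff M.E N.E).comp (M.hol.prodMap N.hol) γ).toEquiv (Prod.map M.dev N.dev x) :=
  Prod.ext (M.equi γ.1 x.1) (N.equi γ.2 x.2)

lemma prod_pd (K : Set (M.X × N.X)) (hK : IsCompact K) :
    {γ : M.Γ × N.Γ | ∃ x ∈ K, (prodAction M N).smul γ x ∈ K}.Finite := by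
  refine ((M.pd _ (hK.image continuous_fst)).prod (N.pd _ (hK.image continuous_snd))).subset ?_
  rintro γ ⟨x, hx, hγ⟩
  exact ⟨⟨x.1, mem_image_of_mem _ hx, ⟨_, hγ, rfl⟩⟩, ⟨x.2, mem_image_of_mem _ hx, ⟨_, hγ, rfl⟩⟩⟩

lemma prod_cc : ∃ K : Set (M.X × N.X), IsCompact K ∧ ∀ x : M.X × N.X, ∃ γ : M.Γ × N.Γ,
    ∃ k ∈ K, (prodAction M N).smul γ k = x := by
  obtain ⟨K, hK, h⟩ := M.cc
  obtain ⟨K', hK', h'⟩ := N.cc
  refine ⟨K ×ˢ K', hK.prod hK', ?_⟩
  rintro ⟨x, y⟩
  obtain ⟨γ, k, hk, rfl⟩ := h x
  obtain ⟨γ', k', hk', rfl⟩ := h' y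
  exact ⟨(γ, γ'), (k, k'), ⟨hk, hk'⟩, rfl⟩

end

/-- The product of two closed affine manifolds. -/
noncomputable def prod (M N : AffineManifold) : AffineManifold where
  E := M.E × N.E
  X := M.X × N.X
  x3 := simplyConnected_prod M.X N.X
  Γ := M.Γ × N.Γ
  g2 := prodAction M N
  dev := Prod.map M.dev N.dev
  hol := (prodAff M.E N.E).comp (M.hol.prodMap N.hol)
  loc := prod_loc M N
  cont := prod_cont M N
  free := prod_free M N
  equi := prod_equi M N
  pd := prod_pd M N
  cc := prod_cc M N

@[simp] lemma dim_prod (M N : AffineManifold) : (M.prod N).dim = M.dim + N.dim :=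
  Module.finrank_prod

/-- The power `M ^ (k + 1)` of a closed affine manifold. -/
noncomputable def power (M : AffineManifold) : ℕ → AffineManifold
  | 0 => M
  | k + 1 => (M.power k).prod M

lemma dim_power (M : AffineManifold) (k : ℕ) : (M.power k).dim = (k + 1) * M.dim := by
  induction k with
  | zero => simp [power]
  | succ k ih => rw [power, dim_prod, ih]; ring

end AffineManifold

end Pool.Agent.X308.M
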