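import Pool.Agent.X308.M.Main
import Pool.Agent.X308.M.Prod
import Mathlib.Analysis.SpecialFunctions.Exp
import Mathlib.Analysis.SpecialFunctions.Log.Basic

/-!
# Subexponential bounds for powers of coverings
-/

set_option autoImplicit false

namespace Pool.Agent.X308.M

open Set Filter Topology

namespace AffineManifold

theorem holRank_prod (M N : AffineManifold) : (M.prod N).holRank ≤ M.holRank + N.holRank := by
  have hfg : Group.FG (M.hol.range × N.hol.range) := by
    have h : Group.FG (M.Γ × N.Γ) := (M.prod N).fg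
    exact Group.fg_of_surjective (f := M.hol.rangeRestrict.prodMap N.hol.rangeRestrict)
      (M.hol.rangeRestrict_surjective.prodMap N.hol.rangeRestrict_surjective)
  refine le_trans ?_ (rank_prod_le M.hol.range N.hol.range)
  let P : M.hol.range × N.hol.range →* Aff (M.E × N.E) :=
    (prodAff M.E N.E).comp (M.hol.range.subtype.prodMap N.hol.range.subtype)
  have hP : ∀ x, P x ∈ (M.prod N).hol.range := by
    rintro ⟨⟨_, a, rfl⟩, ⟨_, b, rfl⟩⟩
    exact ⟨(a, b), rfl⟩
  refine Group.rank_le_of_surjective (P.codRestrict _ hP) ?_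
  rintro ⟨_, ⟨a, b⟩, rfl⟩
  exact ⟨(⟨M.hol a, a, rfl⟩, ⟨N.hol b, b, rfl⟩), rfl⟩

end AffineManifold

open AffineManifold

/-- Root extraction. -/
theorem le_of_pow_bound {φ : ℝ → ℝ} (hφ : Monotone φ)
    (hlim : Tendsto (fun x => φ x / x) atTop (𝓝 0)) {a B C : ℝ} (ha : 0 ≤ a) (hB : 0 ≤ B)
    (h : ∀ k : ℕ, a ^ (k + 1) ≤ B ^ (k + 1) * Real.exp (φ ((k + 1) * C))) : a ≤ B := by
  by_contra hab
  push Not at hab
  have ha0 : 0 < a := lt_of_le_of_lt hB hab
  set D := max C 1 with hD
  have hD0 : 0 < D := lt_of_lt_of_le one_pos (le_max_right _ _)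
  -- if `B = 0` there is nothing to prove
  rcases hB.eq_or_lt with hB0 | hB0
  · have := h 0
    rw [← hB0] at this
    simp at this
    linarith
  have hr : 1 < a / B := (one_lt_div hB0).2 hab
  have hL : 0 < Real.log (a / B) := Real.log_pos hr
  have h1 : ∀ᶠ x : ℝ in atTop, φ x / x < Real.log (a / B) / D :=
    (tendsto_order.1 hlim).2 _ (div_pos hL hD0)
  obtain ⟨x₀, hx₀⟩ := eventually_atTop.1 h1
  obtain ⟨k, hk⟩ := exists_nat_ge (x₀ / D)
  have hk0 : (0 : ℝ) < k + 1 := by positivity
  have h2 : x₀ ≤ (k + 1) * D := by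
    rw [div_le_iff₀ hD0] at hk
    nlinarith
  have h3 := hx₀ _ h2
  have h4 : φ ((k + 1) * C) ≤ φ ((k + 1) * D) :=
    hφ (mul_le_mul_of_nonneg_left (le_max_left _ _) hk0.le)
  have h5 : φ ((k + 1) * D) < Real.log (a / B) / D * ((k + 1) * D) := by
    rwa [div_lt_iff₀ (mul_pos hk0 hD0)] at h3
  have h6 : Real.log (a / B) / D * ((k + 1) * D) = (k + 1) * Real.log (a / B) := by
    field_simp
  have h7 : Real.exp (φ ((k + 1) * C)) < (a / B) ^ (k + 1) := by
    have : (a / B) ^ (k + 1) = Real.exp (((k : ℝ) + 1) * Real.log (a / B)) := by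
      have h8 : ((k : ℝ) + 1) = ((k + 1 : ℕ) : ℝ) := by push_cast; ring
      rw [h8, Real.exp_nat_mul, Real.exp_log (lt_trans one_pos hr)]
    rw [this]
    exact Real.exp_lt_exp.2 (by linarith)
  have h9 := h k
  have h10 : B ^ (k + 1) * Real.exp (φ ((k + 1) * C)) < B ^ (k + 1) * (a / B) ^ (k + 1) :=
    mul_lt_mul_of_pos_left h7 (pow_pos hB0 _)
  rw [← mul_pow, mul_div_cancel₀ _ hB0.ne'] at h10
  linarith

/-- An invariant whose absolute value is supermultiplicative under products. -/
def ProductSupermultiplicative (v : AffineManifold → ℝ) : Prop :=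
  ∀ M N : AffineManifold, |v M| * |v N| ≤ |v (M.prod N)|

/-- An invariant which is subadditive under products. -/
def ProductSubadditive (c : AffineManifold → ℝ) : Prop :=
  ∀ M N : AffineManifold, c (M.prod N) ≤ c M + c N

/-- The class of the powers of the finite coverings of `M`. -/
theorem main2 (v : AffineManifold → ℝ)
    (hv : CoveringMultiplicative v) (hv' : ProductSupermultiplicative v)
    (c : AffineManifold → ℝ) (hc' : ProductSubadditive c)
    (B : ℝ) (hB : 0 ≤ B) (φ : ℝ → ℝ) (hφ : Sublinear φ)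
    (M : AffineManifold) (hn : 0 < M.dim) (F : Finset M.Γ)
    (h : ∀ (S : Subgroup M.Γ) [S.FiniteIndex], M.Admissible F S → ∀ k : ℕ,
      |v ((M.cover S).power k)| ≤ B ^ (k + 1) * Real.exp (φ (c ((M.cover S).power k)))) :
    v M = 0 := by
  have hpow : ∀ (N : AffineManifold) (k : ℕ), |v N| ^ (k + 1) ≤ |v (N.power k)| := by
    intro N k
    induction k with
    | zero => simp [power]
    | succ k ih =>
      rw [pow_succ]
      exact (mul_le_mul_of_nonneg_right ih (abs_nonneg _)).trans (hv' _ _)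
  have hcpow : ∀ (N : AffineManifold) (k : ℕ), c (N.power k) ≤ (k + 1) * c N := by
    intro N k
    induction k with
    | zero => simp [power]
    | succ k ih =>
      have := hc' (N.power k) N
      rw [power]
      push_cast
      linarith
  have key : ∀ N : ℕ, (N : ℝ) * |v M| ≤ B := by
    intro N
    obtain ⟨S, h1, h2, h3, h4, h5⟩ := M.exists_cover hn F N
    have h6 : |v (M.cover S)| ≤ B := by
      refine le_of_pow_bound hφ.1 hφ.2 (C := c (M.cover S)) (abs_nonneg _) hB fun k => ?_
      refine (hpow _ k).trans ((h S ⟨h1, h4, h5⟩ k).trans ?_)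
      refine mul_le_mul_of_nonneg_left ?_ (pow_nonneg hB _)
      exact Real.exp_le_exp.2 (hφ.1 (hcpow _ k))
    rw [hv] at h6
    refine le_trans (mul_le_mul_of_nonneg_right ?_ (abs_nonneg _)) h6
    exact_mod_cast h3
  by_contra hne
  have hpos : 0 < |v M| := abs_pos.2 hne
  obtain ⟨N, hN⟩ := exists_nat_gt (B / |v M|)
  rw [div_lt_iff₀ hpos] at hN
  linarith [key N]

end Pool.Agent.X308.M
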